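import Mathlib
import Pool.Agent.SuperPsp.Core

/-!
# Infinitely many three-term progressions of super pseudoprimes, with pairwise coprime terms

The terms are `Φ₁₅(Z)`, `Φ₂₄(Z)`, `Φ₃₀(Z)` with `Z = 4 ^ (3 ^ m * 5 ^ e)`, `e ∈ {0, 1}`.
-/

set_option autoImplicit false

namespace Pool.Agent.Results.MP_3527b9_nt.PrimitiveProgressions

/-- `n` is composite: `n > 1` and `n` is not a prime. -/
def Composite (n : ℕ) : Prop := 1 < n ∧ ¬ n.Prime

/-- `n` is a pseudoprime (to base `2`): `n` is composite and `2 ^ (n - 1) ≡ 1 (mod n)`. -/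
def Pseudoprime (n : ℕ) : Prop := Composite n ∧ 2 ^ (n - 1) ≡ 1 [MOD n]

/-- `n` is a super pseudoprime (to base `2`): `n` is composite and every divisor `d > 1` of `n`
is a prime or a pseudoprime. -/
def SuperPseudoprime (n : ℕ) : Prop :=
  Composite n ∧ ∀ d : ℕ, d ∣ n → 1 < d → d.Prime ∨ Pseudoprime d

lemma super_of_sp {n : ℕ} (h : Pool.Agent.SuperPsp.SP n) : SuperPseudoprime n := by
  obtain ⟨h1, h2, h3⟩ := h
  refine ⟨⟨h1, h2⟩, fun d hd hd1 => ?_⟩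
  rcases h3 d (Nat.mem_divisors.2 ⟨hd, by omega⟩) hd1 with h | ⟨h, h', _⟩
  · exact Or.inl h
  · refine Or.inr ⟨⟨hd1, h'⟩, ?_⟩
    have h4 : d ∣ 2 ^ (d - 1) - 1 := h
    exact ((Nat.modEq_iff_dvd' Nat.one_le_two_pow).2 h4).symm

/-- There are infinitely many pairs `(x, r)` with `x, r ≥ 1` and `gcd (x, r) = 1` such that
`x`, `x + r`, `x + 2 r` are super pseudoprimes, and these three numbers are pairwise coprime. -/
theorem result :
    {q : ℕ × ℕ | 1 ≤ q.1 ∧ 1 ≤ q.2 ∧ SuperPseudoprime q.1 ∧ SuperPseudoprime (q.1 + q.2) ∧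
      SuperPseudoprime (q.1 + 2 * q.2) ∧ Nat.Coprime q.1 q.2 ∧ Nat.Coprime q.1 (q.1 + q.2) ∧
      Nat.Coprime (q.1 + q.2) (q.1 + 2 * q.2) ∧ Nat.Coprime q.1 (q.1 + 2 * q.2)}.Infinite := by
  apply Set.Infinite.of_image Prod.fst
  apply Set.infinite_of_forall_exists_gt
  intro n
  obtain ⟨b, hb⟩ := Pool.Agent.SuperPsp.sp_y n
  have h2 := Pool.Agent.SuperPsp.two_le_four_pow n b
  obtain ⟨h3, h4, h5⟩ := Pool.Agent.SuperPsp.ap _ h2
  have hx := super_of_sp (Pool.Agent.SuperPsp.sp_x n b)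
  have hy := super_of_sp hb
  have hz := super_of_sp (Pool.Agent.SuperPsp.sp_z n b)
  have k1 : n < 3 ^ n := Nat.lt_pow_self (by norm_num)
  have k2 : 3 ^ n ≤ 3 ^ n * 5 ^ b := Nat.le_mul_of_pos_right _ (by positivity)
  have k3 : 3 ^ n * 5 ^ b < 4 ^ (3 ^ n * 5 ^ b) := Nat.lt_pow_self (by norm_num)
  have hev : 2 ∣ 4 ^ (3 ^ n * 5 ^ b) := by
    have h0 : (3 ^ n * 5 ^ b) ≠ 0 := by positivity
    exact dvd_pow (by norm_num) h0
  generalize 4 ^ (3 ^ n * 5 ^ b) = Z at *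
  obtain ⟨r, hr⟩ : ∃ r, Pool.Agent.SuperPsp.fy Z = Pool.Agent.SuperPsp.fx Z + r :=
    ⟨_, (Nat.add_sub_of_le h3.le).symm⟩
  have hr' : Pool.Agent.SuperPsp.fz Z = Pool.Agent.SuperPsp.fx Z + 2 * r := by omega
  have hr1 : 1 ≤ r := by omega
  -- the difference
  have hrZ : (r : ℤ) = Z * (Z ^ 2 - 1) * (Z ^ 4 - 1) := by
    have e1 := Pool.Agent.SuperPsp.cast_fx ℤ Z (by omega)
    have e2 := Pool.Agent.SuperPsp.cast_fy ℤ Z (by omega)
    rw [hr] at e2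
    push_cast at e2
    linear_combination e2 - e1
  have hcop : IsCoprime ((Pool.Agent.SuperPsp.fx Z : ℕ) : ℤ) (r : ℤ) := by
    rw [hrZ, Pool.Agent.SuperPsp.cast_fx ℤ Z (by omega)]
    generalize (Z : ℤ) = W
    have c0 : IsCoprime (W ^ 8 - W ^ 7 + W ^ 5 - W ^ 4 + W ^ 3 - W + 1) W :=
      ⟨1, -((W ^ 4 - 1) * (W ^ 3 - W ^ 2 + 1)), by ring⟩
    have c1 : IsCoprime (W ^ 8 - W ^ 7 + W ^ 5 - W ^ 4 + W ^ 3 - W + 1) (W ^ 2 - 1) :=
      ⟨1, -(W * (W ^ 2 + 1) * (W ^ 3 - W ^ 2 + 1)), by ring⟩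
    have c2 : IsCoprime (W ^ 8 - W ^ 7 + W ^ 5 - W ^ 4 + W ^ 3 - W + 1) (W ^ 4 - 1) :=
      ⟨1, -(W * (W ^ 3 - W ^ 2 + 1)), by ring⟩
    exact (c0.mul_right c1).mul_right c2
  have hcop' : Nat.Coprime (Pool.Agent.SuperPsp.fx Z) r := Nat.isCoprime_iff_coprime.1 hcop
  have hodd : Nat.Coprime (Pool.Agent.SuperPsp.fx Z) 2 := by
    have hodd' : Odd (Pool.Agent.SuperPsp.fx Z) := by
      unfold Pool.Agent.SuperPsp.fx
      have he : Even Z := even_iff_two_dvd.2 hev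
      apply Even.add_one
      apply Even.add
      · apply Even.add
        · exact Even.mul_right (he.pow_of_ne_zero (by norm_num)) _
        · exact Even.mul_right (he.pow_of_ne_zero (by norm_num)) _
      · exact Even.mul_right he _
    exact (Nat.coprime_two_right).2 hodd'
  have k4 : Z ≤ Pool.Agent.SuperPsp.fx Z := by
    unfold Pool.Agent.SuperPsp.fx
    have : Z * 1 ≤ Z * (Z ^ 2 - 1) := by
      apply Nat.mul_le_mul_left
      have : 1 < Z ^ 2 := Nat.one_lt_pow (by norm_num) (by omega)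
      omega
    omega
  refine ⟨Pool.Agent.SuperPsp.fx Z, ⟨(Pool.Agent.SuperPsp.fx Z, r), ⟨?_, hr1, hx, ?_, ?_, hcop',
    ?_, ?_, ?_⟩, rfl⟩, by omega⟩
  · show 1 ≤ Pool.Agent.SuperPsp.fx Z
    omega
  · show SuperPseudoprime (Pool.Agent.SuperPsp.fx Z + r)
    rw [← hr]; exact hy
  · show SuperPseudoprime (Pool.Agent.SuperPsp.fx Z + 2 * r)
    rw [← hr']; exact hz
  · show Nat.Coprime (Pool.Agent.SuperPsp.fx Z) (Pool.Agent.SuperPsp.fx Z + r)
    simpa using hcop'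
  · show Nat.Coprime (Pool.Agent.SuperPsp.fx Z + r) (Pool.Agent.SuperPsp.fx Z + 2 * r)
    have : Pool.Agent.SuperPsp.fx Z + 2 * r = (Pool.Agent.SuperPsp.fx Z + r) + r := by ring
    rw [this]
    simpa using hcop'
  · show Nat.Coprime (Pool.Agent.SuperPsp.fx Z) (Pool.Agent.SuperPsp.fx Z + 2 * r)
    have : Nat.Coprime (Pool.Agent.SuperPsp.fx Z) (2 * r) := Nat.Coprime.mul_right hodd hcop'
    simpa using this

end Pool.Agent.Results.MP_3527b9_nt.PrimitiveProgressions
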